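import Pool.Agent.Lib.MP_c7af3c_ag.T2.H19.Hull
import Pool.Agent.Lib.MP_c7af3c_ag.T2C.IfaceA

/-!
# MP_c7af3c_ag, project T2C: module HULL (helper19)
-/

set_option autoImplicit false

namespace Pool.Agent.T2C.H19

open MvPolynomial Pool.Agent.T2 Pool.Agent.Gen Pool.Agent.Sharp Pool.Agent.Edge
open Pool.Agent.T2.H19

/-- Module HULL. -/
theorem hull : HullStatement := by
  intro Ω _ _ k Γ _ S n c d D x j0 h
  obtain ⟨m, t, P, h1, h2, h3, h4, h5⟩ := exists_chart k x j0 (by rw [h.hj0]; exact one_ne_zero)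
  refine ⟨m, t, P, ?_, ⟨⟨h1, h2, h3⟩, h4, h5⟩⟩
  by_contra hm
  push Not at hm
  obtain rfl | rfl : m = 0 ∨ m = 1 := by omega
  · refine h.nl (P 0) 0 (h4 0) (fun _ => k.zero_mem) (x (t 0)) 0 ?_
    funext f
    rw [smul_zero, add_zero, Pi.smul_apply, smul_eq_mul]
    conv_lhs => rw [h3 f]
    rw [Fin.sum_univ_one, mul_comm]
  · refine h.nl (P 0) (P 1) (h4 0) (h4 1) (x (t 0)) (x (t 1)) ?_
    funext f
    rw [Pi.add_apply, Pi.smul_apply, Pi.smul_apply, smul_eq_mul, smul_eq_mul]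
    conv_lhs => rw [h3 f]
    rw [Fin.sum_univ_two, mul_comm, mul_comm (x (t 1))]

end Pool.Agent.T2C.H19
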