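import Pool.Agent.Lib.MP_c7af3c_ag.T2C.Base
import Pool.Agent.Lib.MP_c7af3c_ag.T2.H54.Basic
import Pool.Agent.Lib.MP_c7af3c_ag.EDGE.H19.Refine

/-!
# MP_c7af3c_ag, project T2C: tools for the determinants of one block (helper19)
-/

set_option autoImplicit false
set_option linter.unusedSectionVars false
set_option linter.unusedVariables false

namespace Pool.Agent.T2C.H19

open MvPolynomial Pool.Agent.T2 Pool.Agent.Gen Pool.Agent.Sharp Pool.Agent.Edge
open Pool.Agent.Edge.H19

variable {Ω : Type} [Field Ω] {n c : ℕ} {d : Fin c → ℕ} (D : DSys Ω n c d)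
  (x : Fin (n + 1) → Ω) (j0 : Fin (n + 1))

theorem mem_KerF {u : Fin (n + 1) → Ω} :
    u ∈ KerF D x ↔ ∀ m, ∑ p, eval x (pderiv p (D.F m)) * u p = 0 := Iff.rfl

theorem x_mem (h0 : ∀ m, eval x (D.F m) = 0) : x ∈ KerF D x := fun m => grad_x D x h0 m

theorem VT_mem (h0 : ∀ m, eval x (D.F m) = 0) {G : TP Ω n c}
    (hG : ∀ m, (G m).IsHomogeneous (d m)) (hx : ∀ m, eval x (G m) = 0) :
    VT D x G ∈ KerF D x := by
  intro m
  rw [grad_VT D x h0 G hG m, hx m, neg_zero]

theorem WT_mem (h0 : ∀ m, eval x (D.F m) = 0) (p q : Fin (n + 1)) :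
    WT D x p q ∈ KerF D x := fun m => grad_WT D x h0 p q m

theorem mulT_mem (h0 : ∀ m, eval x (D.F m) = 0) {A : TP Ω n c} (hA : Adm d A)
    {l : MvPolynomial (Fin (n + 1)) Ω} (hl : l.IsHomogeneous 1) (hx : eval x l = 0) :
    VT D x (mulT A l) ∈ KerF D x := fun m => grad_mulT D x h0 hA hl hx m

theorem eval_lf' (hj0 : x j0 = 1) (i : Fin (n + 1)) : eval x (lf x j0 i) = 0 := by
  unfold lf
  rw [map_sub, map_mul, eval_X, eval_X, eval_C, hj0, mul_one, sub_self]

theorem lf_self (hj0 : x j0 = 1) : lf x j0 j0 = 0 := by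
  unfold lf
  rw [hj0, C_1, one_mul, sub_self]

theorem lf_mem (hj0 : x j0 = 1) (h0 : ∀ m, eval x (D.F m) = 0) {A : TP Ω n c} (hA : Adm d A)
    (i : Fin (n + 1)) : VT D x (mulT A (lf x j0 i)) ∈ KerF D x :=
  mulT_mem D x h0 hA (hom_lf x j0 i) (eval_lf' x j0 hj0 i)

/-- a bounded column is tangent -/
theorem Bc_mem {k : Subfield Ω} (h0 : ∀ m, eval x (D.F m) = 0) {u : Fin (n + 1) → Ω}
    (hu : Bc D x k u) : u ∈ KerF D x := by
  rcases hu with ⟨p, q, rfl⟩ | ⟨G, hG, hx, rfl⟩
  · exact WT_mem D x h0 p q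
  · exact VT_mem D x h0 (fun m => (hG m).1) hx

/-- `l ↦ V(A l)` -/
noncomputable def VR (A : TP Ω n c) :
    MvPolynomial (Fin (n + 1)) Ω →ₗ[Ω] (Fin (n + 1) → Ω) where
  toFun l := VT D x (mulT A l)
  map_add' l l' := by
    rw [← map_add]
    congr 1
    funext m
    simp only [mulT, Pi.add_apply, mul_add]
  map_smul' a l := by
    rw [RingHom.id_apply, ← map_smul]
    congr 1
    funext m
    simp only [mulT, Pi.smul_apply, mul_smul_comm]

theorem VR_apply (A : TP Ω n c) (l : MvPolynomial (Fin (n + 1)) Ω) :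
    VR D x A l = VT D x (mulT A l) := rfl

section
variable {s r : ℕ} (ε : (Unit ⊕ (Fin s ⊕ Fin r)) ⊕ Fin c ≃ Fin (n + 1))
  (η : Fin s → Fin (n + 1) → Ω)

/-- all columns -/
noncomputable def cols (w : Fin r → Fin (n + 1) → Ω) :
    (Unit ⊕ (Fin s ⊕ Fin r)) ⊕ Fin c → Fin (n + 1) → Ω :=
  colU D x (Sum.elim (fun _ : Unit => x) (Sum.elim η w)) j0

theorem dt_eq (w : Fin r → Fin (n + 1) → Ω) :
    dt D x j0 ε η w = detA ε (cols D x j0 η w) := by
  rw [detA_apply]
  rfl

theorem cols_update [DecidableEq (Fin r)] [DecidableEq ((Unit ⊕ (Fin s ⊕ Fin r)) ⊕ Fin c)]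
    (w : Fin r → Fin (n + 1) → Ω) (b : Fin r) (u : Fin (n + 1) → Ω) :
    cols D x j0 η (Function.update w b u) =
      Function.update (cols D x j0 η w) (Sum.inl (Sum.inr (Sum.inr b))) u := by
  funext k
  rcases k with (a | (a | a)) | m
  · rw [Function.update_of_ne (by simp)]
    rfl
  · rw [Function.update_of_ne (by simp)]
    rfl
  · by_cases h : a = b
    · subst h
      rw [Function.update_self]
      simp only [cols, colU, Sum.elim_inl, Sum.elim_inr, Function.update_self]
    · rw [Function.update_of_ne (by simpa using h)]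
      simp only [cols, colU, Sum.elim_inl, Sum.elim_inr, Function.update_of_ne h]
  · rw [Function.update_of_ne (by simp)]
    rfl

/-- `dt` as an alternating form in the columns `w` -/
noncomputable def om : (Fin (n + 1) → Ω) [⋀^Fin r]→ₗ[Ω] Ω where
  toFun w := dt D x j0 ε η w
  map_update_add' w b u v := by
    classical
    rw [dt_eq, dt_eq, dt_eq, cols_update, cols_update, cols_update, AlternatingMap.map_update_add]
  map_update_smul' w b a u := by
    classical
    rw [dt_eq, dt_eq, cols_update, cols_update, AlternatingMap.map_update_smul]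
  map_eq_zero_of_eq' w b b' h hb := by
    rw [dt_eq]
    refine AlternatingMap.map_eq_zero_of_eq _ _ (i := Sum.inl (Sum.inr (Sum.inr b)))
      (j := Sum.inl (Sum.inr (Sum.inr b'))) h ?_
    simpa using hb

theorem om_apply (w : Fin r → Fin (n + 1) → Ω) : om D x j0 ε η w = dt D x j0 ε η w := rfl

/-- a slot is zero on `Hs` -/
theorem om_Hs (w : Fin r → Fin (n + 1) → Ω) (b : Fin r) {u : Fin (n + 1) → Ω}
    (hu : u ∈ Hs x η) : om D x j0 ε η (Function.update w b u) = 0 := by
  classical
  unfold Hs at hu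
  induction hu using Submodule.span_induction with
  | mem u hu =>
    rw [om_apply, dt_eq]
    rcases hu with rfl | ⟨a, rfl⟩
    · refine AlternatingMap.map_eq_zero_of_eq _ _ (i := Sum.inl (Sum.inl ()))
        (j := Sum.inl (Sum.inr (Sum.inr b))) ?_ (by simp)
      rw [cols_update, Function.update_self, Function.update_of_ne (by simp)]
      rfl
    · refine AlternatingMap.map_eq_zero_of_eq _ _ (i := Sum.inl (Sum.inr (Sum.inl a)))
        (j := Sum.inl (Sum.inr (Sum.inr b))) ?_ (by simp)
      rw [cols_update, Function.update_self, Function.update_of_ne (by simp)]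
      rfl
  | zero => exact (om D x j0 ε η).map_update_zero _ _
  | add u v _ _ hu hv => rw [AlternatingMap.map_update_add, hu, hv, add_zero]
  | smul a u _ hu => rw [AlternatingMap.map_update_smul, hu, smul_zero]

/-- the determinant only depends on the columns `w` modulo `Hs` -/
theorem om_congr {w w' : Fin r → Fin (n + 1) → Ω} (h : ∀ b, w b - w' b ∈ Hs x η) :
    om D x j0 ε η w = om D x j0 ε η w' := by
  classical
  have key : ∀ T : Finset (Fin r), om D x j0 ε η (fun b => if b ∈ T then w b else w' b) =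
      om D x j0 ε η w' := by
    intro T
    induction T using Finset.induction_on with
    | empty => simp
    | insert b T hb ih =>
      have e1 : (fun c => if c ∈ insert b T then w c else w' c) =
          Function.update (fun c => if c ∈ T then w c else w' c) b (w' b + (w b - w' b)) := by
        funext c
        by_cases hc : c = b
        · subst hc
          rw [Function.update_self]
          simp
        · rw [Function.update_of_ne hc]
          simp [Finset.mem_insert, hc]
      rw [e1, AlternatingMap.map_update_add, om_Hs D x j0 ε η _ b (h b), add_zero]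
      have e2 : Function.update (fun c => if c ∈ T then w c else w' c) b (w' b) =
          fun c => if c ∈ T then w c else w' c := by
        rw [Function.update_eq_self_iff]
        simp [hb]
      rw [e2]
      exact ih
  have := key Finset.univ
  simpa using this

/-- vectors of the kernel all whose determinants are zero are in `Hs` -/
theorem mem_Hs (hj0 : x j0 = 1) (h0 : ∀ m, eval x (D.F m) = 0)
    (hη : ∀ a, η a ∈ KerF D x) {w : Fin r → Fin (n + 1) → Ω}
    (hw : ∀ b, w b ∈ KerF D x) (hd : dt D x j0 ε η w ≠ 0)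
    {u : Fin (n + 1) → Ω} (hu : u ∈ KerF D x)
    (h : ∀ b, om D x j0 ε η (Function.update w b u) = 0) : u ∈ Hs x η := by
  classical
  set K := cols D x j0 η w with hK
  let M : Matrix ((Unit ⊕ (Fin s ⊕ Fin r)) ⊕ Fin c) ((Unit ⊕ (Fin s ⊕ Fin r)) ⊕ Fin c) Ω :=
    Matrix.of fun a k => K k (ε a)
  have hM : M.det = dt D x j0 ε η w := rfl
  let cr := M.cramer fun a => u (ε a)
  have h1 : ∀ p, ∑ k, cr k * K k p = M.det * u p := by
    intro p
    have h2 := congrFun (Matrix.mulVec_cramer M fun a => u (ε a)) (ε.symm p)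
    rw [Pi.smul_apply, Equiv.apply_symm_apply, smul_eq_mul] at h2
    rw [← h2]
    unfold Matrix.mulVec dotProduct
    refine Finset.sum_congr rfl fun k _ => ?_
    rw [mul_comm]
    change K k p * _ = K k (ε (ε.symm p)) * _
    rw [Equiv.apply_symm_apply]
  have h2 : ∀ b, cr (Sum.inl (Sum.inr (Sum.inr b))) = 0 := by
    intro b
    have h3 := h b
    rw [om_apply, dt_eq, cols_update, detA_apply] at h3
    change M.cramer _ _ = 0
    rw [Matrix.cramer_apply, ← h3]
    congr 1
    ext a k
    rw [Matrix.updateCol_apply, Matrix.of_apply]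
    by_cases hk : k = Sum.inl (Sum.inr (Sum.inr b))
    · subst hk
      rw [if_pos rfl, Function.update_self]
    · rw [if_neg hk, Function.update_of_ne hk]
      rfl
  have h3 : ∀ m, cr (Sum.inr m) = 0 := by
    intro m
    have h4 : ∑ p, eval x (pderiv p (D.F m)) * (M.det * u p) = 0 := by
      rw [← mul_zero M.det, ← hu m, Finset.mul_sum]
      exact Finset.sum_congr rfl fun p _ => by ring
    have h5 : ∑ k, cr k * ∑ p, eval x (pderiv p (D.F m)) * K k p = 0 := by
      rw [← h4]
      simp only [← h1, Finset.mul_sum]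
      rw [Finset.sum_comm]
      refine Finset.sum_congr rfl fun p _ => Finset.sum_congr rfl fun k _ => by ring
    rw [Fintype.sum_sum_type, Fintype.sum_sum_type, Fintype.sum_sum_type] at h5
    have e1 : ∑ a : Unit, cr (Sum.inl (Sum.inl a)) *
        ∑ p, eval x (pderiv p (D.F m)) * K (Sum.inl (Sum.inl a)) p = 0 := by
      refine Finset.sum_eq_zero fun a _ => ?_
      have : ∑ p, eval x (pderiv p (D.F m)) * K (Sum.inl (Sum.inl a)) p = 0 := grad_x D x h0 m
      rw [this, mul_zero]
    have e2 : ∑ a : Fin s, cr (Sum.inl (Sum.inr (Sum.inl a))) *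
        ∑ p, eval x (pderiv p (D.F m)) * K (Sum.inl (Sum.inr (Sum.inl a))) p = 0 := by
      refine Finset.sum_eq_zero fun a _ => ?_
      have : ∑ p, eval x (pderiv p (D.F m)) * K (Sum.inl (Sum.inr (Sum.inl a))) p = 0 := hη a m
      rw [this, mul_zero]
    have e3 : ∑ a : Fin r, cr (Sum.inl (Sum.inr (Sum.inr a))) *
        ∑ p, eval x (pderiv p (D.F m)) * K (Sum.inl (Sum.inr (Sum.inr a))) p = 0 := by
      refine Finset.sum_eq_zero fun a _ => ?_
      rw [h2, zero_mul]
    have e4 : ∀ m', ∑ p, eval x (pderiv p (D.F m)) * K (Sum.inr m') p =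
        if m' = m then -1 else 0 := by
      intro m'
      have := grad_U D x h0 m' m j0
      rw [hj0, one_pow] at this
      exact this
    simp only [e4, mul_ite, mul_neg, mul_one, mul_zero, Finset.sum_ite_eq', Finset.mem_univ,
      if_true] at h5
    rw [e1, e2, e3] at h5
    simpa using h5
  have h6 : M.det • u = cr (Sum.inl (Sum.inl ())) • x +
      ∑ a, cr (Sum.inl (Sum.inr (Sum.inl a))) • η a := by
    funext p
    rw [Pi.smul_apply, smul_eq_mul, ← h1 p, Fintype.sum_sum_type, Fintype.sum_sum_type,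
      Fintype.sum_sum_type, Pi.add_apply, Finset.sum_apply]
    have e3 : ∑ a : Fin r, cr (Sum.inl (Sum.inr (Sum.inr a))) *
        K (Sum.inl (Sum.inr (Sum.inr a))) p = 0 :=
      Finset.sum_eq_zero fun a _ => by rw [h2, zero_mul]
    have e4 : ∑ m, cr (Sum.inr m) * K (Sum.inr m) p = 0 :=
      Finset.sum_eq_zero fun a _ => by rw [h3, zero_mul]
    rw [e3, e4, add_zero, add_zero, Fintype.sum_unique]
    rfl
  have h7 : M.det ≠ 0 := by rw [hM]; exact hd
  have h8 : M.det • u ∈ Hs x η := by
    rw [h6]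
    refine Submodule.add_mem _ (Submodule.smul_mem _ _ (Submodule.subset_span
      (Set.mem_insert _ _))) (Submodule.sum_mem _ fun a _ => Submodule.smul_mem _ _
      (Submodule.subset_span (Set.mem_insert_of_mem _ ⟨a, rfl⟩)))
  have h9 := Submodule.smul_mem (Hs x η) M.det⁻¹ h8
  rwa [smul_smul, inv_mul_cancel₀ h7, one_smul] at h9

/-- independent columns of the kernel have a nonzero determinant -/
theorem dt_ne_zero (hj0 : x j0 = 1) (h0 : ∀ m, eval x (D.F m) = 0)
    (hη : ∀ a, η a ∈ KerF D x) {w : Fin r → Fin (n + 1) → Ω}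
    (hw : ∀ b, w b ∈ KerF D x)
    (hli : LinearIndependent Ω (Sum.elim (fun _ : Unit => x) (Sum.elim η w))) :
    dt D x j0 ε η w ≠ 0 := by
  classical
  have hc : Fintype.card (Unit ⊕ (Fin s ⊕ Fin r)) + c = n + 1 := by
    have := Fintype.card_congr ε
    rw [Fintype.card_sum, Fintype.card_fin, Fintype.card_fin] at this
    exact this
  obtain ⟨μ, hμ, hdet⟩ := detU D x h0 _ hli (by
    rintro (_ | (j | j)) m
    · exact grad_x D x h0 m
    · exact hη j m
    · exact hw j m) hc hj0 ε
  have h1 := hdet j0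
  rw [hj0, one_pow, mul_one] at h1
  unfold dt
  rw [h1]
  exact hμ

/-- independence from a nonzero determinant -/
theorem li_of_dt {w : Fin r → Fin (n + 1) → Ω} (hd : dt D x j0 ε η w ≠ 0) :
    LinearIndependent Ω (Sum.elim (fun _ : Unit => x) (Sum.elim η w)) := by
  classical
  have h1 : LinearIndependent Ω (cols D x j0 η w) := by
    by_contra hcon
    apply hd
    rw [dt_eq]
    exact AlternatingMap.map_linearDependent _ _ hcon
  have h2 := h1.comp (Sum.inl : Unit ⊕ (Fin s ⊕ Fin r) → _) Sum.inl_injective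
  exact h2

/-- the monomial tuples are over `k` -/
theorem mu_Tk (k : Subfield Ω) (a : TI n c d) : Tk k d (mu Ω a) := by
  refine ⟨mu_adm a, fun m I => ?_⟩
  unfold mu
  by_cases hm : m = a.1.1
  · subst hm
    rw [Pi.single_eq_same, coeff_monomial]
    split_ifs
    · exact k.one_mem
    · exact k.zero_mem
  · rw [Pi.single_eq_of_ne hm, coeff_zero]
    exact k.zero_mem

/-- admissible tuples are spanned by the tuples over `k` -/
theorem adm_span_Tk (k : Subfield Ω) {A : TP Ω n c} (hA : Adm d A) :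
    A ∈ Submodule.span Ω {B | Tk k d B} := by
  refine Submodule.span_mono ?_ (adm_span hA)
  rintro _ ⟨a, rfl⟩
  exact mu_Tk k a

theorem Tk_add {k : Subfield Ω} {A B : TP Ω n c} (hA : Tk k d A) (hB : Tk k d B) :
    Tk k d (A + B) := by
  refine ⟨fun m I h => ?_, fun m I => ?_⟩
  · rw [Pi.add_apply, coeff_add] at h
    by_cases h1 : coeff I (A m) = 0
    · rw [h1, zero_add] at h
      exact hB.1 m I h
    · exact hA.1 m I h1
  · rw [Pi.add_apply, coeff_add]
    exact k.add_mem (hA.2 m I) (hB.2 m I)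

theorem Tk_smul {k : Subfield Ω} {z : Ω} (hz : z ∈ k) {A : TP Ω n c} (hA : Tk k d A) :
    Tk k d (z • A) := by
  refine ⟨fun m I h => ?_, fun m I => ?_⟩
  · rw [Pi.smul_apply, coeff_smul, smul_eq_mul] at h
    exact hA.1 m I (right_ne_zero_of_mul h)
  · rw [Pi.smul_apply, coeff_smul, smul_eq_mul]
    exact k.mul_mem hz (hA.2 m I)

/-- a good multiple -/
theorem exists_mult [CharZero Ω] (w w' : Fin r → Fin (n + 1) → Ω)
    (hw : dt D x j0 ε η w ≠ 0) :
    ∃ z : ℕ, z ≠ 0 ∧ dt D x j0 ε η (fun b => w b + (z : Ω) • w' b) ≠ 0 := by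
  classical
  -- the polynomial in the multiple
  let K : (Unit ⊕ (Fin s ⊕ Fin r)) ⊕ Fin c → Fin (n + 1) → Ω := cols D x j0 η w
  let K' : (Unit ⊕ (Fin s ⊕ Fin r)) ⊕ Fin c → Fin (n + 1) → Ω :=
    Sum.elim (Sum.elim (fun _ => 0) (Sum.elim (fun _ => 0) w')) fun _ => 0
  let p : Polynomial Ω := Matrix.det (Matrix.of fun a k => Polynomial.C (K k (ε a)) +
    Polynomial.X * Polynomial.C (K' k (ε a)))
  have hp : ∀ z : Ω, p.eval z = dt D x j0 ε η (fun b => w b + z • w' b) := by
    intro z
    rw [dt_eq, detA_apply]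
    change Polynomial.evalRingHom z p = _
    rw [RingHom.map_det]
    congr 1
    ext a k
    rw [RingHom.mapMatrix_apply, Matrix.map_apply, Matrix.of_apply, Matrix.of_apply]
    simp only [Polynomial.coe_evalRingHom, Polynomial.eval_add, Polynomial.eval_C,
      Polynomial.eval_mul, Polynomial.eval_X]
    have hz0 : ∀ q : Ω, q + z * (0 : Ω) = q := fun q => by rw [mul_zero, add_zero]
    rcases k with (a' | (a' | a')) | m
    · exact hz0 _
    · exact hz0 _
    · rfl
    · exact hz0 _
  have hp0 : p ≠ 0 := by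
    intro h
    apply hw
    have h1 := hp 0
    rw [h, Polynomial.eval_zero] at h1
    rw [h1]
    congr 1
    funext b
    rw [zero_smul, add_zero]
  by_contra hcon
  push Not at hcon
  apply hp0
  refine Polynomial.eq_zero_of_infinite_isRoot _ ?_
  refine Set.Infinite.mono (s := Set.range fun z : ℕ => ((z + 1 : ℕ) : Ω)) ?_ ?_
  · rintro _ ⟨z, rfl⟩
    change p.eval _ = 0
    rw [hp]
    exact hcon (z + 1) (Nat.succ_ne_zero z)
  · refine Set.infinite_range_of_injective fun a b hab => ?_
    have := Nat.cast_injective (R := Ω) hab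
    exact Nat.succ_injective this

end

end Pool.Agent.T2C.H19
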