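import Pool.Agent.Lib.MP_c7af3c_ag.T2.H19.Wordb
import Pool.Agent.Lib.MP_c7af3c_ag.T2C.IfaceA
import Pool.Agent.Lib.MP_c7af3c_ag.T2C.H19.Blk

/-!
# MP_c7af3c_ag, project T2C: module VANB (helper19)
-/

set_option autoImplicit false
set_option linter.unusedSectionVars false
set_option linter.unusedVariables false

namespace Pool.Agent.T2C.H19

open MvPolynomial Pool.Agent.T2 Pool.Agent.Gen Pool.Agent.Sharp Pool.Agent.Edge
open Pool.Agent.Edge.H19 Pool.Agent.T2.H19

section

variable {Ω : Type} [Field Ω] {n c : ℕ} {d : Fin c → ℕ} (D : DSys Ω n c d)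
  (x : Fin (n + 1) → Ω) (j0 : Fin (n + 1))
  {s r : ℕ} (ε : (Unit ⊕ (Fin s ⊕ Fin r)) ⊕ Fin c ≃ Fin (n + 1))
  (η : Fin s → Fin (n + 1) → Ω)

/-- the values on linear forms -/
noncomputable def wo (A : TP Ω n c) (i : Fin r → Fin (n + 1)) : Ω :=
  dt D x j0 ε η fun b => VT D x (mulT A (lf x j0 (i b)))

theorem wo_j0 (hj0 : x j0 = 1) (A : TP Ω n c) (i : Fin r → Fin (n + 1))
    (b : Fin r) (hb : i b = j0) : wo D x j0 ε η A i = 0 := by
  unfold wo
  rw [← om_apply]
  refine AlternatingMap.map_coord_zero _ b ?_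
  rw [hb, lf_self x j0 hj0]
  exact (VR D x A).map_zero

theorem tauB_eq (A : TP Ω n c) (i : Fin (r + 1) → Fin (n + 1)) :
    tauB D x j0 ε η A i = ∑ a : Fin (r + 1), (-1) ^ (a : ℕ) * x (i a) *
      wo D x j0 ε η A fun b => i (a.succAbove b) := rfl

/-- the values are contractions -/
theorem wo_eq_tauB (hj0 : x j0 = 1) (A : TP Ω n c)
    (i : Fin r → Fin (n + 1)) :
    wo D x j0 ε η A i = tauB D x j0 ε η A (Fin.cons j0 i) := by
  rw [tauB_eq, Fin.sum_univ_succ]
  simp only [Fin.val_zero, pow_zero, one_mul, Fin.cons_zero, Fin.zero_succAbove, Fin.cons_succ]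
  rw [hj0, one_mul, Finset.sum_eq_zero, add_zero]
  intro a _
  rw [wo_j0 D x j0 ε η hj0 A _ ⟨0, (Nat.zero_le _).trans_lt a.2⟩, mul_zero]
  have h1 : a.succ.succAbove ⟨0, (Nat.zero_le _).trans_lt a.2⟩ = 0 := by
    rw [Fin.succAbove_of_castSucc_lt]
    · rfl
    · rw [Fin.lt_def]
      simp
  rw [h1, Fin.cons_zero]

theorem hull_y0 {k : Subfield Ω} {m : ℕ} {t : Fin (m + 1) → Fin (n + 1)}
    {P : Fin (m + 1) → Fin (n + 1) → Ω} (hj0 : x j0 = 1) (hH : Hull k x j0 t P) :
    x (t 0) = 1 := by rw [hH.t0, hj0]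

/-- `P_l ∧ ω = 0` for `l ≥ 1` -/
theorem wedge_zero {k : Subfield Ω} {m : ℕ} {t : Fin (m + 1) → Fin (n + 1)}
    {P : Fin (m + 1) → Fin (n + 1) → Ω} (hj0 : x j0 = 1) (hH : Hull k x j0 t P)
    {A : TP Ω n c} (hT : ∀ i, tauB D x j0 ε η A i ∈ k) (l : Fin m)
    (v : Fin (r + 1) → Fin (n + 1)) :
    ∑ a : Fin (r + 1), (-1) ^ (a : ℕ) * P l.succ (v a) *
      wo D x j0 ε η A (fun b => v (a.succAbove b)) = 0 := by
  classical
  have hw : ∀ i, wo D x j0 ε η A i ∈ k := fun i => by
    rw [wo_eq_tauB D x j0 ε η hj0]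
    exact hT _
  have h1 := hH.yk (fun l => (∑ a : Fin (r + 1), (-1) ^ (a : ℕ) * P l (v a) *
      wo D x j0 ε η A (fun b => v (a.succAbove b))) -
      if l = 0 then tauB D x j0 ε η A v else 0) (fun l => by
    refine k.sub_mem (k.sum_mem fun a _ => k.mul_mem (k.mul_mem (k.pow_mem (k.neg_mem k.one_mem) _)
      (hH.Pk l _)) (hw _)) ?_
    split_ifs
    · exact hT v
    · exact k.zero_mem) (by
    simp only [sub_mul, Finset.sum_sub_distrib, ite_mul, zero_mul,
      Finset.sum_ite_eq', Finset.mem_univ, if_true]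
    rw [hull_y0 x j0 hj0 hH, mul_one, sub_eq_zero, tauB_eq]
    simp only [Finset.sum_mul]
    rw [Finset.sum_comm]
    refine Finset.sum_congr rfl fun a _ => ?_
    conv_rhs => rw [hH.xP (v a)]
    rw [Finset.mul_sum, Finset.sum_mul]
    exact Finset.sum_congr rfl fun l _ => by ring)
  have h2 := congrFun h1 l.succ
  rw [Pi.zero_apply, if_neg (Fin.succ_ne_zero l), sub_zero] at h2
  exact h2

/-- the form which vanishes on the hull -/
theorem lam_eq {m : ℕ} {t : Fin (m + 1) → Fin (n + 1)}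
    {P : Fin (m + 1) → Fin (n + 1) → Ω} (hC : Cht x j0 t P) (f : Fin (n + 1)) :
    lam t P f = lf x j0 f - ∑ i, P i f • lf x j0 (t i) := by
  unfold lam lf
  have h1 : ∑ i, P i f • (X (t i) - C (x (t i)) * X j0 : MvPolynomial (Fin (n + 1)) Ω) =
      ∑ i, C (P i f) * X (t i) - C (x f) * X j0 := by
    simp only [smul_eq_C_mul, mul_sub, Finset.sum_sub_distrib]
    congr 1
    rw [hC.xP f, map_sum, Finset.sum_mul]
    exact Finset.sum_congr rfl fun i _ => by rw [C_mul, mul_assoc]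
  rw [h1]
  ring

theorem V_lam {m : ℕ} {t : Fin (m + 1) → Fin (n + 1)}
    {P : Fin (m + 1) → Fin (n + 1) → Ω} (hC : Cht x j0 t P) (A : TP Ω n c)
    (f : Fin (n + 1)) : VT D x (mulT A (lam t P f)) =
      VT D x (mulT A (lf x j0 f)) - ∑ i, P i f • VT D x (mulT A (lf x j0 (t i))) := by
  rw [lam_eq x j0 hC]
  change VR D x A _ = VR D x A _ - ∑ i, P i f • VR D x A _
  rw [map_sub, map_sum]
  congr 1
  exact Finset.sum_congr rfl fun i _ => map_smul _ _ _

theorem eval_lam {m : ℕ} {t : Fin (m + 1) → Fin (n + 1)}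
    {P : Fin (m + 1) → Fin (n + 1) → Ω} (hC : Cht x j0 t P) (f : Fin (n + 1)) :
    eval x (lam t P f) = 0 := by
  unfold lam
  rw [map_sub, map_sum, eval_X, sub_eq_zero]
  conv_lhs => rw [hC.xP f]
  exact Finset.sum_congr rfl fun i _ => by rw [map_mul, eval_C, eval_X]

theorem hom_lam {m : ℕ} (t : Fin (m + 1) → Fin (n + 1))
    (P : Fin (m + 1) → Fin (n + 1) → Ω) (f : Fin (n + 1)) : (lam t P f).IsHomogeneous 1 :=
  (isHomogeneous_X Ω f).sub (IsHomogeneous.sum _ _ _ fun _ _ => hom_CX _ _)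

/-- one `A`: the columns `V(A λ)` are in `Hs` -/
theorem van_one {k : Subfield Ω} {t : Fin (r + 1) → Fin (n + 1)}
    {P : Fin (r + 1) → Fin (n + 1) → Ω} (hj0 : x j0 = 1)
    (h0 : ∀ m, eval x (D.F m) = 0) (hη : ∀ a, η a ∈ KerF D x) (hH : Hull k x j0 t P)
    {A : TP Ω n c} (hA : Adm d A)
    (hT : ∀ i, tauB D x j0 ε η A i ∈ k) (hne : ∃ i, wo D x j0 ε η A i ≠ 0) :
    (wo D x j0 ε η A fun b => t b.succ) ≠ 0 ∧
    ∀ f, VT D x (mulT A (lam t P f)) ∈ Hs x η := by
  classical
  obtain ⟨-, h2⟩ := wedge_lemma r r (wo D x j0 ε η A) (fun l => P l.succ) (fun l => t l.succ)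
    (fun i j => by rw [hH.Pt]; simp [Fin.succ_inj]) (fun l v =>
      wedge_zero D x j0 ε η hj0 hH hT l v) hne
  obtain ⟨h3, h4⟩ := h2 rfl
  have h3' : (wo D x j0 ε η A fun b => t b.succ) ≠ 0 := h3
  refine ⟨h3', fun f => ?_⟩
  refine mem_Hs D x j0 ε η hj0 h0 hη (fun b => lf_mem D x j0 hj0 h0 hA (t (Fin.succ b))) h3'
    (mulT_mem D x h0 hA (hom_lam t P f) (eval_lam x j0 hH.toCht f)) fun b => ?_
  -- the determinants with an index replaced
  have h5 : ∀ g, om D x j0 ε η (Function.update (fun b => VT D x (mulT A (lf x j0 (t (Fin.succ b))))) b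
      (VT D x (mulT A (lf x j0 g)))) =
      (wo D x j0 ε η A fun b => t b.succ) * P b.succ g := by
    intro g
    have h6 := h4 (Function.update (fun b => t b.succ) b g)
    have h7 : wo D x j0 ε η A (Function.update (fun b => t b.succ) b g) =
        om D x j0 ε η (Function.update (fun b => VT D x (mulT A (lf x j0 (t (Fin.succ b))))) b
      (VT D x (mulT A (lf x j0 g)))) := by
      unfold wo
      rw [om_apply]
      congr 1
      funext c
      by_cases hc : c = b
      · subst hc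
        rw [Function.update_self, Function.update_self]
      · rw [Function.update_of_ne hc, Function.update_of_ne hc]
    rw [← h7, h6]
    congr 1
    have h8 : (Matrix.of fun (l : Fin r) (c : Fin r) => P (Fin.cast rfl l).succ
        (Function.update (fun b => t b.succ) b g c)) =
        (1 : Matrix (Fin r) (Fin r) Ω).updateCol b fun l => P l.succ g := by
      ext l c
      rw [Matrix.of_apply, Matrix.updateCol_apply]
      by_cases hc : c = b
      · subst hc
        rw [Function.update_self, if_pos rfl]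
        rfl
      · rw [Function.update_of_ne hc, if_neg hc]
        change P l.succ (t c.succ) = _
        rw [hH.Pt, Matrix.one_apply]
        simp [Fin.succ_inj]
    rw [h8]
    rw [← Matrix.cramer_apply, Matrix.cramer_one]
    rfl
  rw [V_lam D x j0 hH.toCht, AlternatingMap.map_update_sub, AlternatingMap.map_update_sum, h5]
  have h6 : ∀ i : Fin (r + 1), om D x j0 ε η (Function.update
      (fun b => VT D x (mulT A (lf x j0 (t (Fin.succ b))))) b (P i f • VT D x (mulT A (lf x j0 (t i))))) =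
      if i = b.succ then (wo D x j0 ε η A fun b => t b.succ) * P b.succ f else 0 := by
    intro i
    rw [AlternatingMap.map_update_smul, h5, hH.Pt, smul_eq_mul]
    by_cases hi : i = b.succ
    · subst hi
      rw [if_pos rfl, if_pos rfl]
      ring
    · rw [if_neg hi, if_neg (Ne.symm hi)]
      ring
  rw [Finset.sum_congr rfl fun i _ => h6 i, Finset.sum_ite_eq', if_pos (Finset.mem_univ _),
    sub_self]

end

/-- Module VANB. -/
theorem vanb : VanbStatement := by
  classical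
  intro hLoc hTau Ω _ _ k Γ _ S n c d D x j0 hn hd h s r ε η hr hη A1 hA1 i1 hne m t P hH
  have h0 := h.h0
  have hT := hTau hLoc Ω k Γ S n c d D x j0 hn hd h
  have hgη : ∀ a, η a ∈ KerF D x := fun a => Bc_mem D x h0 (hη a)
  have hne' : wo D x j0 ε η A1 i1 ≠ 0 := hne
  obtain ⟨h1, -⟩ := wedge_lemma r m (wo D x j0 ε η A1) (fun l => P l.succ) (fun l => t l.succ)
    (fun i j => by rw [hH.Pt]; simp [Fin.succ_inj]) (fun l v =>
      wedge_zero D x j0 ε η h.hj0 hH (hT s r ε η hη A1 hA1) l v) ⟨i1, hne'⟩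
  refine ⟨h1, ?_⟩
  rintro rfl
  obtain ⟨h2, h3⟩ := van_one D x j0 ε η h.hj0 h0 hgη hH hA1.1 (hT s m ε η hη A1 hA1) ⟨i1, hne'⟩
  refine ⟨fun A hA f => ?_, fun t' ht' => ?_⟩
  · clear hLoc
    -- tuples over `k`
    have key : ∀ B, Tk k d B → VT D x (mulT B (lam t P f)) ∈ Hs x η := by
      intro B hB
      obtain ⟨z, hz, hz'⟩ := exists_mult D x j0 ε η
        (fun b => VT D x (mulT A1 (lf x j0 (t (Fin.succ b)))))
        (fun b => VT D x (mulT B (lf x j0 (t (Fin.succ b))))) h2
      have hzB : Tk k d (A1 + (z : Ω) • B) := Tk_add hA1 (Tk_smul (natCast_mem k z) hB)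
      have hV : ∀ l : MvPolynomial (Fin (n + 1)) Ω, VT D x (mulT (A1 + (z : Ω) • B) l) =
          VT D x (mulT A1 l) + (z : Ω) • VT D x (mulT B l) := by
        intro l
        change VL D x l _ = VL D x l _ + (z : Ω) • VL D x l _
        rw [map_add, map_smul]
      have h4 := (van_one D x j0 ε η h.hj0 h0 hgη hH hzB.1 (hT s m ε η hη _ hzB)
        ⟨fun b => t (Fin.succ b), by
          unfold wo
          simp only [hV]
          exact hz'⟩).2 f
      rw [hV] at h4
      have h5 := (Submodule.add_mem_iff_right _ (h3 f)).1 h4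
      exact (Submodule.smul_mem_iff _ (Nat.cast_ne_zero.2 hz)).1 h5
    have h4 := adm_span_Tk k hA
    have h5 : (Submodule.span Ω {B : TP Ω n c | Tk k d B}).map (VL D x (lam t P f)) ≤ Hs x η := by
      rw [Submodule.map_span, Submodule.span_le]
      rintro _ ⟨B, hB, rfl⟩
      exact key B hB
    exact h5 (Submodule.mem_map_of_mem h4)
  · have h4 : t' = fun b => t b.succ := by
      funext b
      exact ht' b b.succ (by simp)
    rw [h4]
    exact h2

end Pool.Agent.T2C.H19
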