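import Pool.Agent.Lib.MP_c7af3c_ag.T2C.H19.Rs

/-!
# MP_c7af3c_ag, project T2C: a three-dimensional space is not in all quadrics (helper19)
`n = c + 3`, `∑ d = n + 2`, `d m = 2` or `3`: the restrictions of the quadrics to four independent
vectors are not all zero.
-/

set_option autoImplicit false

namespace Pool.Agent.T2C.H19

open MvPolynomial Pool.Agent.Gen Pool.Agent.Sharp.H75
open Pool.Agent.Edge.H65 (dco_F)

section

variable {L : Type} [Field L] {n c r : ℕ} {d : Fin c → ℕ} (D : DSys L n c d)
  (P : Fin r → Fin (n + 1) → L)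

/-- the monomials of `F_m` restrict to `- ∑ p, rs (F_(m,p)) δ(P)_p` if the restrictions of the
`F_m'`, `m'` in `Q`, are zero -/
theorem rs_mono (Q : Fin c → Prop) (h0 : ∀ m, Q m → rs P (D.F m) = 0) (m m' : Fin c)
    (hm' : Q m') (I : Fin (n + 1) →₀ ℕ) (hI : I.degree = d m) :
    ∑ p, rs P (pderiv p (D.F m')) * ∑ i, C (- D.del m I (P i p)) * X i =
      if m = m' then rs P (monomial I 1) else 0 := by
  have h1 := dco_rs P (D.del m I) (D.F m')
  rw [h0 m' hm', dco_zero, dco_F D m m' I hI] at h1
  have h2 : ∑ p, rs P (pderiv p (D.F m')) * ∑ i, C (- D.del m I (P i p)) * X i =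
      - ∑ p, rs P (pderiv p (D.F m')) * ∑ i, C (D.del m I (P i p)) * X i := by
    rw [← Finset.sum_neg_distrib]
    refine Finset.sum_congr rfl fun p _ => ?_
    rw [← mul_neg, ← Finset.sum_neg_distrib]
    refine congrArg _ (Finset.sum_congr rfl fun i _ => ?_)
    rw [C_neg, neg_mul]
  rw [h2]
  split_ifs at h1 ⊢ with h
  · exact (neg_eq_of_add_eq_zero_left h1.symm)
  · rw [map_zero, zero_add] at h1
    rw [← h1, neg_zero]

/-- the map of the count -/
noncomputable def Psi (Q : Fin c → Prop) :
    (Fin r → Fin (n + 1) → L) →ₗ[L] ({m // Q m} → MvPolynomial (Fin r) L) where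
  toFun z m := ∑ p, rs P (pderiv p (D.F m)) * ∑ i, C (z i p) * X i
  map_add' z z' := by
    funext m
    simp only [Pi.add_apply, C_add, add_mul, Finset.sum_add_distrib, mul_add]
  map_smul' a z := by
    funext m
    simp only [Pi.smul_apply, RingHom.id_apply, smul_eq_C_mul, smul_eq_mul, C_mul]
    rw [Finset.mul_sum]
    refine Finset.sum_congr rfl fun p _ => ?_
    rw [mul_left_comm]
    refine congrArg _ ?_
    rw [Finset.mul_sum]
    exact Finset.sum_congr rfl fun i _ => by ring

theorem Psi_apply (Q : Fin c → Prop) (z : Fin r → Fin (n + 1) → L) (m : {m // Q m}) :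
    Psi D P Q z m = ∑ p, rs P (pderiv p (D.F m)) * ∑ i, C (z i p) * X i := rfl

/-- **The dimension count**: if the restrictions of the `F_m`, `m` in `Q`, are zero then
`∑_Q C(d_m + r - 1, d_m) + r^2 ≤ r (n + 1)`. -/
theorem count_zero (hP : LinearIndependent L P) (Q : Fin c → Prop) [Fintype {m // Q m}]
    (h0 : ∀ m, Q m → rs P (D.F m) = 0) :
    ∑ m : {m // Q m}, (r + d m - 1).choose (d m) + r * r ≤ r * (n + 1) := by
  classical
  have hfin : ∀ T, Module.Finite L (homogeneousSubmodule (Fin r) L T) := fun T =>
    Module.Finite.iff_fg.2 (homogeneousSubmodule_fg (Fin r) L T)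
  have hrn := LinearMap.finrank_range_add_finrank_ker (Psi D P Q)
  have h3 : Module.finrank L (Fin r → Fin (n + 1) → L) = r * (n + 1) := by
    rw [Module.finrank_pi_fintype]
    simp
  rw [h3] at hrn
  have hker : r * r ≤ Module.finrank L (LinearMap.ker (Psi D P Q)) := by
    let v : Fin r × Fin r → (Fin r → Fin (n + 1) → L) := fun ik => Pi.single ik.1 (P ik.2)
    have hvk : ∀ o, v o ∈ LinearMap.ker (Psi D P Q) := by
      rintro ⟨i, k⟩
      rw [LinearMap.mem_ker]
      funext m
      rw [Psi_apply]
      simp only [v]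
      have h1 := pderiv_rs P k (D.F m)
      rw [h0 m m.2, map_zero] at h1
      have h2 : ∑ p, rs P (pderiv p (D.F m)) *
          ∑ i', C ((Pi.single i (P k) : Fin r → Fin (n + 1) → L) i' p) * X i' =
          X i * ∑ p, C (P k p) * rs P (pderiv p (D.F m)) := by
        rw [Finset.mul_sum]
        refine Finset.sum_congr rfl fun p _ => ?_
        rw [Finset.sum_eq_single i]
        · rw [Pi.single_eq_same]
          ring
        · intro i' _ hi'
          rw [Pi.single_eq_of_ne hi', Pi.zero_apply, C_0, zero_mul]
        · intro h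
          exact absurd (Finset.mem_univ _) h
      rw [h2, ← h1, mul_zero, Pi.zero_apply]
    have hvi : LinearIndependent L v := by
      rw [Fintype.linearIndependent_iff]
      intro a ha
      have h1 : ∀ i k, a (i, k) = 0 := by
        intro i
        have h2 := congrFun ha i
        rw [Finset.sum_apply, Fintype.sum_prod_type, Finset.sum_eq_single i] at h2
        · simp only [v, Pi.smul_apply, Pi.single_eq_same, Pi.zero_apply] at h2
          exact Fintype.linearIndependent_iff.1 hP (fun k => a (i, k)) h2
        · intro i' _ hi'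
          refine Finset.sum_eq_zero fun k _ => ?_
          have h3 : v (i', k) i = 0 := by
            simp only [v]
            exact Pi.single_eq_of_ne (Ne.symm hi') _
          rw [Pi.smul_apply, h3, smul_zero]
        · intro h
          exact absurd (Finset.mem_univ _) h
      rintro ⟨i, k⟩
      exact h1 i k
    have h5 : Submodule.span L (Set.range v) ≤ LinearMap.ker (Psi D P Q) :=
      Submodule.span_le.2 (by rintro _ ⟨o, rfl⟩; exact hvk o)
    have h6 := Submodule.finrank_mono h5
    rw [finrank_span_eq_card hvi] at h6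
    simpa using h6
  have hran : ∑ m : {m // Q m}, (r + d m - 1).choose (d m) ≤
      Module.finrank L (LinearMap.range (Psi D P Q)) := by
    let ι : (∀ m : {m // Q m}, homogeneousSubmodule (Fin r) L (d m)) →ₗ[L]
        ({m // Q m} → MvPolynomial (Fin r) L) :=
      LinearMap.pi fun m => (homogeneousSubmodule (Fin r) L (d m)).subtype ∘ₗ LinearMap.proj m
    have hι : Function.Injective ι := by
      intro z z' h
      funext m
      exact Subtype.ext (congrFun h m)
    have h1 : Module.finrank L (LinearMap.range ι) =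
        ∑ m : {m // Q m}, (r + d m - 1).choose (d m) := by
      rw [LinearMap.finrank_range_of_inj hι, Module.finrank_pi_fintype]
      simp only [finrank_hom4]
    rw [← h1]
    refine Submodule.finrank_mono ?_
    have h2 : ∀ (m : {m // Q m}) (I : Fin (n + 1) →₀ ℕ), I.degree = d m →
        (Pi.single m (rs P (monomial I 1)) : {m // Q m} → MvPolynomial (Fin r) L) ∈
          LinearMap.range (Psi D P Q) := by
      intro m I hI
      refine ⟨fun i p => - D.del m I (P i p), ?_⟩
      funext m'
      rw [Psi_apply, rs_mono D P Q h0 m m' m'.2 I hI, Pi.single_apply]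
      by_cases hm : m = m'
      · subst hm
        rw [if_pos rfl, if_pos rfl]
      · rw [if_neg fun h => hm (Subtype.ext h), if_neg (Ne.symm hm)]
    have h3 : ∀ (m : {m // Q m}) (A : MvPolynomial (Fin (n + 1)) L), A.IsHomogeneous (d m) →
        (Pi.single m (rs P A) : {m // Q m} → MvPolynomial (Fin r) L) ∈
          LinearMap.range (Psi D P Q) := by
      intro m A hA
      have h4 : (Pi.single m (rs P A) : {m // Q m} → MvPolynomial (Fin r) L) =
          ∑ I ∈ A.support, coeff I A • Pi.single m (rs P (monomial I 1)) := by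
        conv_lhs => rw [A.as_sum]
        rw [map_sum]
        have h5 := map_sum (LinearMap.single L (fun _ : {m // Q m} => MvPolynomial (Fin r) L) m)
          (fun I => rs P (monomial I (coeff I A))) A.support
        simp only [LinearMap.coe_single] at h5
        rw [h5]
        refine Finset.sum_congr rfl fun I _ => ?_
        rw [← Pi.single_smul, ← map_smul, smul_monomial, smul_eq_mul, mul_one]
      rw [h4]
      refine Submodule.sum_mem _ fun I hI => Submodule.smul_mem _ _ (h2 m I ?_)
      have h6 := hA (mem_support_iff.1 hI)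
      rw [Finsupp.degree_eq_weight_one]
      exact h6
    rintro _ ⟨z, rfl⟩
    have h4 : ι z = ∑ m, (Pi.single m (z m : MvPolynomial (Fin r) L) :
        {m // Q m} → MvPolynomial (Fin r) L) := by
      rw [Finset.univ_sum_single]
      rfl
    rw [h4]
    refine Submodule.sum_mem _ fun m _ => ?_
    obtain ⟨A, hA, hA'⟩ := rs_surj P hP (z m).2
    rw [← hA']
    exact h3 m A hA
  omega

/-- a quadric contains no space of `r` independent vectors if `n + 1 < 2 r` -/
theorem quad_ne (hP : LinearIndependent L P) (hr : n + 1 < r + r) {m : Fin c} (hm : d m = 2) :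
    rs P (D.F m) ≠ 0 := by
  classical
  intro h0
  -- the linear forms
  have h1 : ∀ p, (rs P (pderiv p (D.F m))).IsHomogeneous 1 := by
    intro p
    have h := rs_hom P ((D.hom m).pderiv (i := p))
    rwa [hm] at h
  -- the map `z -> (ℓ_p(z))_p`, as a matrix
  let ℓ : (Fin r → L) →ₗ[L] (Fin (n + 1) → L) :=
    { toFun := fun z p => ∑ i, coeff (Finsupp.single i 1) (rs P (pderiv p (D.F m))) * z i
      map_add' := fun z z' => by
        funext p
        simp only [Pi.add_apply, mul_add, Finset.sum_add_distrib]
      map_smul' := fun a z => by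
        funext p
        simp only [Pi.smul_apply, smul_eq_mul, RingHom.id_apply, Finset.mul_sum]
        exact Finset.sum_congr rfl fun i _ => by ring }
  have hlin : ∀ (G : MvPolynomial (Fin r) L), G.IsHomogeneous 1 → ∀ z : Fin r → L,
      eval z G = ∑ i, coeff (Finsupp.single i 1) G * z i := by
    intro G hG z
    have h2 : G = ∑ i, C (coeff (Finsupp.single i 1) G) * X i := by
      ext J
      rw [coeff_sum]
      by_cases hJ : J.degree = 1
      · obtain ⟨i, hi⟩ := (Finsupp.sum_eq_one_iff J).1 hJ
        subst hi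
        rw [Finset.sum_eq_single i]
        · rw [coeff_C_mul, coeff_X, if_pos rfl, mul_one]
        · intro i' _ hi'
          rw [coeff_C_mul, coeff_X, if_neg, mul_zero]
          intro h
          exact hi' (Finsupp.single_left_injective one_ne_zero h)
        · intro h
          exact absurd (Finset.mem_univ _) h
      · rw [hG.coeff_eq_zero (by rwa [Finsupp.degree_eq_sum, ← Finsupp.degree_eq_sum])]
        refine (Finset.sum_eq_zero fun i _ => ?_).symm
        rw [coeff_C_mul, coeff_X, if_neg, mul_zero]
        rintro rfl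
        exact hJ (Finsupp.degree_single i 1)
    conv_lhs => rw [h2]
    rw [map_sum]
    exact Finset.sum_congr rfl fun i _ => by rw [map_mul, eval_C, eval_X]
  have hℓ : ∀ z p, ℓ z p = eval z (rs P (pderiv p (D.F m))) := fun z p =>
    (hlin _ (h1 p) z).symm
  -- the image is killed by the `P j`
  let κ : (Fin (n + 1) → L) →ₗ[L] (Fin r → L) :=
    { toFun := fun w k => ∑ p, P k p * w p
      map_add' := fun z z' => by
        funext k
        simp only [Pi.add_apply, mul_add, Finset.sum_add_distrib]
      map_smul' := fun a z => by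
        funext k
        simp only [Pi.smul_apply, smul_eq_mul, RingHom.id_apply, Finset.mul_sum]
        exact Finset.sum_congr rfl fun i _ => by ring }
  have hκℓ : LinearMap.range ℓ ≤ LinearMap.ker κ := by
    rintro _ ⟨z, rfl⟩
    rw [LinearMap.mem_ker]
    funext k
    change ∑ p, P k p * ℓ z p = 0
    have h2 := pderiv_rs P k (D.F m)
    rw [h0, map_zero] at h2
    have h3 := congrArg (eval z) h2
    rw [map_zero, map_sum] at h3
    simp only [map_mul, eval_C] at h3
    simp only [hℓ]
    exact h3.symm
  have hκ : LinearMap.range κ = ⊤ := by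
    obtain ⟨Q, hQ⟩ := exists_dual' P hP
    rw [LinearMap.range_eq_top]
    intro w
    refine ⟨fun p => ∑ i, w i * Q i p, ?_⟩
    funext k
    change ∑ p, P k p * ∑ i, w i * Q i p = w k
    simp only [Finset.mul_sum]
    rw [Finset.sum_comm]
    have h2 : ∀ i, ∑ p, P k p * (w i * Q i p) = if i = k then w i else 0 := by
      intro i
      have h3 := hQ i k
      have h4 : ∑ p, P k p * (w i * Q i p) = w i * ∑ p, Q i p * P k p := by
        rw [Finset.mul_sum]
        exact Finset.sum_congr rfl fun p _ => by ring
      rw [h4, h3]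
      split_ifs <;> simp
    simp only [h2, Finset.sum_ite_eq', Finset.mem_univ, if_true]
  have hdim1 := LinearMap.finrank_range_add_finrank_ker κ
  rw [hκ, finrank_top] at hdim1
  have hdim2 := LinearMap.finrank_range_add_finrank_ker ℓ
  have hdim3 := Submodule.finrank_mono hκℓ
  have h4 : Module.finrank L (Fin (n + 1) → L) = n + 1 := by simp
  have h5 : Module.finrank L (Fin r → L) = r := by simp
  rw [h4, h5] at hdim1
  rw [h5] at hdim2
  have h6 : 0 < Module.finrank L (LinearMap.ker ℓ) := by omega
  have h7 : LinearMap.ker ℓ ≠ ⊥ := by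
    intro h
    rw [h, finrank_bot] at h6
    exact lt_irrefl _ h6
  obtain ⟨z, hz, hz0⟩ := Submodule.exists_mem_ne_zero_of_ne_bot h7
  rw [LinearMap.mem_ker] at hz
  have hz1 : ∀ p, eval z (rs P (pderiv p (D.F m))) = 0 := fun p => by
    rw [← hℓ, hz, Pi.zero_apply]
  -- every quadric vanishes at z
  have h8 : ∀ I : Fin (n + 1) →₀ ℕ, I.degree = 2 → eval z (rs P (monomial I 1)) = 0 := by
    intro I hI
    have h9 := rs_mono D P (fun m' => m' = m) (fun m' hm' => by rw [hm', h0]) m m rfl I
      (by rw [hI, hm])
    rw [if_pos rfl] at h9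
    rw [← h9, map_sum]
    exact Finset.sum_eq_zero fun p _ => by rw [map_mul, hz1, zero_mul]
  refine hz0 (funext fun i => ?_)
  obtain ⟨A, hA, hA'⟩ := rs_surj P hP (G := X i ^ 2) (e := 2) (isHomogeneous_X_pow _ _)
  have h9 : eval z (rs P A) = 0 := by
    conv_lhs => rw [A.as_sum]
    rw [map_sum, map_sum]
    refine Finset.sum_eq_zero fun I hI => ?_
    have h10 : (monomial I (coeff I A) : MvPolynomial (Fin (n + 1)) L) =
        C (coeff I A) * monomial I 1 := by
      rw [C_mul_monomial, mul_one]
    rw [h10, map_mul, rs_C, map_mul, h8 I, mul_zero]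
    have h6 := hA (mem_support_iff.1 hI)
    rw [Finsupp.degree_eq_weight_one]
    exact h6
  rw [hA', map_pow, eval_X] at h9
  rw [Pi.zero_apply]
  exact pow_eq_zero_iff (two_ne_zero) |>.1 h9

/-- **N3Z**: a three-dimensional linear space is not in all quadrics of the system -/
theorem n3z (D : DSys L n c d) (hn : n = c + 3) (hd : ∑ m, d m = n + 2)
    (h23 : ∀ m, d m = 2 ∨ d m = 3) {P : Fin 4 → Fin (n + 1) → L} (hP : LinearIndependent L P) :
    ∃ m0, d m0 = 2 ∧ rs P (D.F m0) ≠ 0 := by
  classical
  by_contra hcon
  push Not at hcon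
  -- the number of quadrics
  have h1 := count_zero D P hP (fun m => d m = 2) hcon
  have h2 : ∑ m : {m // d m = 2}, (4 + d m - 1).choose (d m) =
      10 * Fintype.card {m // d m = 2} := by
    rw [Finset.sum_congr rfl fun (m : {m // d m = 2}) _ => by
      rw [m.2], Finset.sum_const, Finset.card_univ, smul_eq_mul, mul_comm]
    rfl
  rw [h2, Fintype.card_subtype] at h1
  have h3 : ∑ m, d m + (Finset.univ.filter fun m => d m = 2).card = 3 * c := by
    rw [Finset.card_filter, ← Finset.sum_add_distrib]
    rw [Finset.sum_congr rfl fun m _ => show d m + (if d m = 2 then 1 else 0) = 3 by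
      rcases h23 m with h | h <;> simp [h]]
    rw [Finset.sum_const, Finset.card_univ, Fintype.card_fin, smul_eq_mul, mul_comm]
  have h4 : (Finset.univ.filter fun m => d m = 2).card ≠ 0 := by omega
  obtain ⟨m, hm⟩ := Finset.card_pos.1 (Nat.pos_of_ne_zero h4)
  have hm2 : d m = 2 := (Finset.mem_filter.1 hm).2
  have h5 : (Finset.univ.filter fun m => d m = 2).card ≤ c := by
    have := Finset.card_le_univ (Finset.univ.filter fun m => d m = 2)
    rwa [Fintype.card_fin] at this
  by_cases h6 : n + 1 < 4 + 4
  · exact quad_ne D P hP h6 hm2 (hcon m hm2)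
  · omega

/-- N3Z for a frame -/
theorem n3z_frame (D : DSys L n c d) (hn : n = c + 3) (hd : ∑ m, d m = n + 2)
    (h23 : ∀ m, d m = 2 ∨ d m = 3) {t : Fin 4 → Fin (n + 1)} {P : Fin 4 → Fin (n + 1) → L}
    (hPt : ∀ i j, P i (t j) = if i = j then 1 else 0) :
    ∃ m0, d m0 = 2 ∧ (aeval fun f => ∑ i, C (P i f) * X i :
      MvPolynomial (Fin (n + 1)) L →ₐ[L] MvPolynomial (Fin 4) L) (D.F m0) ≠ 0 :=
  n3z D hn hd h23 (li_frame P hPt)

end

end Pool.Agent.T2C.H19
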