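import Pool.Agent.Lib.MP_c7af3c_ag.T2C.NO3.Iface
import Pool.Agent.Lib.MP_c7af3c_ag.T2C.H19.N3z

/-!
# MP_c7af3c_ag, project T2C, row N3Z (helper19)
-/

set_option autoImplicit false

namespace Pool.Agent.T2C.H19

open MvPolynomial Pool.Agent.Gen Pool.Agent.Sharp Pool.Agent.Edge
open Pool.Agent.T2C.NO3 (N3ZStatement)

/-- Row N3Z. -/
theorem n3zst : N3ZStatement := fun _ _ _ _ _ _ D hn hd h2 h3 _ hu =>
  n3z D hn hd (fun m => by have := h2 m; have := h3 m; omega) hu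

end Pool.Agent.T2C.H19
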