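import Pool.Agent.Lib.MP_c7af3c_ag.EDGE.H65.NoFactor

/-!
# MP_c7af3c_ag, project T2C: restriction of forms to a linear space (helper19)
The lemmas of EDGE/H65/NoFactor.lean for `r` vectors.
-/

set_option autoImplicit false

namespace Pool.Agent.T2C.H19

open MvPolynomial Pool.Agent.Gen Pool.Agent.Sharp.H75
open Pool.Agent.Edge.H65 (dco_F)

section

variable {L : Type} [Field L] {n r : ℕ} (P : Fin r → Fin (n + 1) → L)

/-- the restriction to the space spanned by the `P i` -/
noncomputable def rs : MvPolynomial (Fin (n + 1)) L →ₐ[L] MvPolynomial (Fin r) L :=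
  aeval fun j => ∑ i, C (P i j) * X i

theorem rs_X (j : Fin (n + 1)) : rs P (X j) = ∑ i, C (P i j) * X i := by
  unfold rs
  rw [aeval_X]

theorem rs_C (a : L) : rs P (C a) = C a := by
  unfold rs
  rw [aeval_C]
  rfl

theorem lin_hom (u : Fin r → L) :
    (∑ i, C (u i) * X i : MvPolynomial (Fin r) L).IsHomogeneous 1 := by
  refine IsHomogeneous.sum _ _ _ fun i _ => ?_
  simpa using (isHomogeneous_C _ (u i)).mul (isHomogeneous_X L i)

theorem rs_hom {F : MvPolynomial (Fin (n + 1)) L} {e : ℕ} (hF : F.IsHomogeneous e) :
    (rs P F).IsHomogeneous e := by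
  have h := hF.aeval (fun j => ∑ i, C (P i j) * X i) (n := 1) fun j => lin_hom fun i => P i j
  rwa [one_mul] at h

theorem dco_rs (δ : Derivation ℤ L L) (F : MvPolynomial (Fin (n + 1)) L) :
    dco δ (rs P F) = rs P (dco δ F) +
      ∑ p, rs P (pderiv p F) * ∑ i, C (δ (P i p)) * X i := by
  classical
  induction F using MvPolynomial.induction_on with
  | C a =>
    rw [rs_C, dco_C, dco_C, rs_C]
    simp
  | add F G hF hG =>
    rw [map_add, dco_add, hF, hG, dco_add, map_add]
    simp only [map_add, add_mul, Finset.sum_add_distrib]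
    ring
  | mul_X F j hF =>
    rw [map_mul, dco_mul, hF, dco_mul, dco_X, mul_zero, add_zero, map_mul]
    have h1 : dco δ (rs P (X j)) = ∑ i, C (δ (P i j)) * X i := by
      rw [rs_X, dco_sum]
      refine Finset.sum_congr rfl fun i _ => ?_
      rw [dco_mul, dco_C, dco_X, mul_zero, add_zero]
    have h2 : ∀ p, rs P (pderiv p (F * X j)) * ∑ i, C (δ (P i p)) * X i =
        rs P (pderiv p F) * (∑ i, C (δ (P i p)) * X i) * rs P (X j) +
          if p = j then rs P F * ∑ i, C (δ (P i p)) * X i else 0 := by
      intro p
      rw [Derivation.leibniz]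
      simp only [smul_eq_mul]
      rw [map_add, map_mul, map_mul]
      split_ifs with h
      · subst h
        rw [pderiv_X_self, map_one]
        ring
      · rw [pderiv_X_of_ne (Ne.symm h), map_zero]
        ring
    simp only [h2, Finset.sum_add_distrib, h1, Finset.sum_ite_eq', Finset.mem_univ, if_true]
    rw [add_mul, Finset.sum_mul]
    ring

theorem pderiv_rs (k : Fin r) (F : MvPolynomial (Fin (n + 1)) L) :
    pderiv k (rs P F) = ∑ p, C (P k p) * rs P (pderiv p F) := by
  classical
  induction F using MvPolynomial.induction_on with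
  | C a => rw [rs_C]; simp
  | add F G hF hG =>
    rw [map_add, map_add, hF, hG]
    simp only [map_add, mul_add, Finset.sum_add_distrib]
  | mul_X F j hF =>
    rw [map_mul, Derivation.leibniz, hF]
    have h1 : pderiv k (rs P (X j)) = C (P k j) := by
      rw [rs_X, map_sum, Finset.sum_eq_single k]
      · rw [Derivation.leibniz, pderiv_X_self, pderiv_C]
        simp
      · intro i _ hi
        rw [Derivation.leibniz, pderiv_X_of_ne hi, pderiv_C]
        simp
      · intro h
        exact absurd (Finset.mem_univ _) h
    have h2 : ∀ p, C (P k p) * rs P (pderiv p (F * X j)) =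
        C (P k p) * rs P (pderiv p F) * rs P (X j) +
          if p = j then C (P k p) * rs P F else 0 := by
      intro p
      rw [Derivation.leibniz]
      simp only [smul_eq_mul]
      rw [map_add, map_mul, map_mul]
      split_ifs with h
      · subst h
        rw [pderiv_X_self, map_one]
        ring
      · rw [pderiv_X_of_ne (Ne.symm h), map_zero]
        ring
    simp only [h2, Finset.sum_add_distrib, h1, Finset.sum_ite_eq', Finset.mem_univ, if_true,
      smul_eq_mul]
    rw [← Finset.sum_mul]
    ring

/-- dual vectors of independent vectors -/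
theorem exists_dual' (hP : LinearIndependent L P) :
    ∃ Q : Fin r → Fin (n + 1) → L, ∀ i i', ∑ j, Q i j * P i' j = if i = i' then 1 else 0 := by
  classical
  obtain ⟨g, hg⟩ := LinearMap.exists_leftInverse_of_injective
    (Fintype.linearCombination L P)
    (LinearMap.ker_eq_bot.2 (linearIndependent_iff_injective_fintypeLinearCombination.1 hP))
  refine ⟨fun i j => g (Pi.single j 1) i, fun i i' => ?_⟩
  have h1 : g (P i') = Pi.single i' 1 := by
    have h2 := LinearMap.congr_fun hg (Pi.single i' 1)
    rw [LinearMap.comp_apply, LinearMap.id_apply, Fintype.linearCombination_apply_single,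
      one_smul] at h2
    exact h2
  have h3 : P i' = ∑ j, P i' j • (Pi.single j 1 : Fin (n + 1) → L) := by
    rw [← pi_eq_sum_univ' (P i')]
  have h4 : g (P i') i = ∑ j, g (Pi.single j 1) i * P i' j := by
    conv_lhs => rw [h3]
    rw [map_sum, Finset.sum_apply]
    refine Finset.sum_congr rfl fun j _ => ?_
    rw [map_smul, Pi.smul_apply, smul_eq_mul, mul_comm]
  rw [← h4, h1, Pi.single_apply]

/-- every form on the space is a restriction -/
theorem rs_surj (hP : LinearIndependent L P) {G : MvPolynomial (Fin r) L} {e : ℕ}
    (hG : G.IsHomogeneous e) : ∃ A : MvPolynomial (Fin (n + 1)) L, A.IsHomogeneous e ∧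
      rs P A = G := by
  classical
  obtain ⟨Q, hQ⟩ := exists_dual' P hP
  refine ⟨aeval (fun i => ∑ j, C (Q i j) * X j) G, ?_, ?_⟩
  · have h := hG.aeval (fun i => ∑ j, C (Q i j) * X j : Fin r → MvPolynomial (Fin (n + 1)) L)
      (n := 1) fun i => by
        refine IsHomogeneous.sum _ _ _ fun j _ => ?_
        simpa using (isHomogeneous_C _ (Q i j)).mul (isHomogeneous_X L j)
    rwa [one_mul] at h
  · have h : (rs P).comp (aeval (fun i => ∑ j, C (Q i j) * X j :
        Fin r → MvPolynomial (Fin (n + 1)) L)) = AlgHom.id L _ := by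
      apply MvPolynomial.algHom_ext
      intro i
      rw [AlgHom.comp_apply, aeval_X, map_sum, AlgHom.id_apply]
      simp only [map_mul, rs_C, rs_X, Finset.mul_sum]
      rw [Finset.sum_comm]
      have h5 : ∀ i', ∑ j, C (Q i j) * (C (P i' j) * X i' : MvPolynomial (Fin r) L) =
          if i = i' then X i' else 0 := by
        intro i'
        have h6 := hQ i i'
        have : ∑ j, C (Q i j) * (C (P i' j) * X i' : MvPolynomial (Fin r) L) =
            C (∑ j, Q i j * P i' j) * X i' := by
          rw [map_sum, Finset.sum_mul]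
          refine Finset.sum_congr rfl fun j _ => ?_
          rw [C_mul]
          ring
        rw [this, h6]
        split_ifs <;> simp
      simp only [h5, Finset.sum_ite_eq, Finset.mem_univ, if_true]
    exact AlgHom.congr_fun h G

/-- a frame with the coordinates `t` is independent -/
theorem li_frame {t : Fin r → Fin (n + 1)} (hPt : ∀ i j, P i (t j) = if i = j then 1 else 0) :
    LinearIndependent L P := by
  rw [Fintype.linearIndependent_iff]
  intro g hg i
  have h := congrFun hg (t i)
  rw [Finset.sum_apply, Pi.zero_apply] at h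
  simpa [hPt] using h

end

theorem finrank_hom4 (K : Type) [Field K] (r T : ℕ) :
    Module.finrank K (homogeneousSubmodule (Fin r) K T) = (r + T - 1).choose T := by
  have h2 : homogeneousSubmodule (Fin r) K T = restrictSupport K {d | d.degree = T} :=
    homogeneousSubmodule_eq_finsupp_supported (Fin r) K T
  rw [h2, Module.finrank_eq_nat_card_basis
    (basisRestrictSupport K {d : Fin r →₀ ℕ | d.degree = T})]
  have h3 : {d : Fin r →₀ ℕ | d.degree = T} =
      ((Finset.univ : Finset (Fin r)).finsuppAntidiag T : Set (Fin r →₀ ℕ)) := by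
    ext d
    simp [Finsupp.degree_eq_sum]
  rw [h3, Nat.card_coe_set_eq, Set.ncard_coe_finset, Finset.card_finsuppAntidiag_nat_eq_choose,
    Finset.card_univ, Fintype.card_fin]

end Pool.Agent.T2C.H19
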